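import Pool.Agent.helper26.T5.SpecH

/-! Row t5:HGT (MP_16912e_nt): the tuples with given `θ`. -/

set_option autoImplicit false

namespace Pool.Agent.helper26.T5

open Finset NumberField Pool.Agent.helper3.FT Pool.Agent.helper47.RA Pool.Agent.T5
open Pool.Agent.helper28.LT (rad)

section

variable {K : Type} [Field K] [NumberField K] {Q : QF K}

theorem HGT_cast_ne {c : ℤ} (hc : c ≠ 0) : (c : 𝓞 K) ≠ 0 := by
  intro h
  apply hc
  exact QF.int_inj (K := K) (by rw [h, Int.cast_zero])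

/-- the identities of one tuple -/
theorem HGT_one {f : ℕ} {t : Tpl} {α γ u v θ θ' : 𝓞 K} (hE : Els Q f t α γ u v θ θ') (hZ : 0 < t.2.2.2)
    (hL : 0 < lam t) : θ * Q.cj θ = ((t.2.2.2 : ℤ) : 𝓞 K) ^ 5 ∧ α ^ 5 = θ ^ 2 * θ' ∧
      θ * γ = ((t.2.2.2 : ℤ) : 𝓞 K) * α ^ 2 ∧ α ≠ 0 ∧ θ ≠ 0 := by
  have hZ0 : ((t.2.2.2 : ℤ) : 𝓞 K) ≠ 0 := HGT_cast_ne hZ.ne'
  have hL0 : ((lam t : ℤ) : 𝓞 K) ≠ 0 := HGT_cast_ne hL.ne'
  have e3 := hE.e3
  have e4 := hE.e4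
  have nα := hE.nα
  have nγ := hE.nγ
  have e3' : Q.cj α ^ 2 * γ = ((lam t : ℤ) : 𝓞 K) ^ 2 * Q.cj θ := by
    have h := congrArg Q.cj e3
    rw [map_mul, map_pow, map_mul, map_pow, Q.cj_cj, Q.cj_int] at h
    exact h
  have h1 : θ * Q.cj θ = ((t.2.2.2 : ℤ) : 𝓞 K) ^ 5 := by
    refine mul_left_cancel₀ (pow_ne_zero 4 hL0) ?_
    calc ((lam t : ℤ) : 𝓞 K) ^ 4 * (θ * Q.cj θ)
        = (((lam t : ℤ) : 𝓞 K) ^ 2 * θ) * (((lam t : ℤ) : 𝓞 K) ^ 2 * Q.cj θ) := by ring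
      _ = (α ^ 2 * Q.cj γ) * (Q.cj α ^ 2 * γ) := by rw [← e3, ← e3']
      _ = (α * Q.cj α) ^ 2 * (γ * Q.cj γ) := by ring
      _ = _ := by
        rw [nα, nγ]
        ring
  have h2 : α ^ 5 = θ ^ 2 * θ' := by
    refine mul_left_cancel₀ (mul_ne_zero (pow_ne_zero 4 hL0) (pow_ne_zero 2 hZ0)) ?_
    calc ((lam t : ℤ) : 𝓞 K) ^ 4 * ((t.2.2.2 : ℤ) : 𝓞 K) ^ 2 * α ^ 5
        = (((t.2.2.2 : ℤ) : 𝓞 K) * ((lam t : ℤ) : 𝓞 K) ^ 2) ^ 2 * α ^ 5 := by ring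
      _ = (γ * Q.cj γ) ^ 2 * α ^ 5 := by rw [nγ]
      _ = (α ^ 2 * Q.cj γ) ^ 2 * (γ ^ 2 * α) := by ring
      _ = _ := by
        rw [e3, e4]
        ring
  have h3 : θ * γ = ((t.2.2.2 : ℤ) : 𝓞 K) * α ^ 2 := by
    refine mul_left_cancel₀ (pow_ne_zero 2 hL0) ?_
    calc ((lam t : ℤ) : 𝓞 K) ^ 2 * (θ * γ) = (((lam t : ℤ) : 𝓞 K) ^ 2 * θ) * γ := by ring
      _ = (α ^ 2 * Q.cj γ) * γ := by rw [e3]
      _ = α ^ 2 * (γ * Q.cj γ) := by ring
      _ = _ := by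
        rw [nγ]
        ring
  have h4 : α ≠ 0 := by
    intro h
    rw [h, zero_mul] at nα
    exact (mul_ne_zero (pow_ne_zero 2 hZ0) hL0) nα.symm
  refine ⟨h1, h2, h3, h4, ?_⟩
  intro h
  rw [h, zero_mul] at h1
  exact (pow_ne_zero 5 hZ0) h1.symm

/-- a tuple is determined by `α` -/
theorem HGT_inj {f : ℕ} (hf : 1 ≤ f) {s t : Tpl} {α γ u v γ' u' v' θ θs θt : 𝓞 K}
    (hs : Els Q f s α γ u v θ θs) (ht : Els Q f t α γ' u' v' θ θt) (hZs : 0 < s.2.2.2)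
    (hLs : 0 < lam s) (hZ : s.2.2.2 = t.2.2.2) : s = t := by
  obtain ⟨-, -, -, hα, -⟩ := HGT_one hs hZs hLs
  have hZ0 : ((s.2.2.2 : ℤ) : 𝓞 K) ≠ 0 := HGT_cast_ne hZs.ne'
  have hf0 : (f : ℤ) ≠ 0 := by exact_mod_cast (by omega : f ≠ 0)
  have hL : lam s = lam t := by
    have h1 := hs.nα
    rw [ht.nα, ← hZ] at h1
    exact QF.int_inj (mul_left_cancel₀ (pow_ne_zero 2 hZ0) h1).symm
  have hL0 : ((lam s : ℤ) : 𝓞 K) ≠ 0 := HGT_cast_ne hLs.ne'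
  have hγ : γ = γ' := by
    have h1 := hs.e3
    have h2 := ht.e3
    rw [← hL, ← h1] at h2
    exact (Q.cj.injective (mul_left_cancel₀ (pow_ne_zero 2 hα) h2)).symm
  subst hγ
  have hu : u = u' := by
    have h1 := hs.e1
    rw [ht.e1, ← hL] at h1
    exact (mul_left_cancel₀ hL0 h1).symm
  have hv : v = v' := by
    have h1 := hs.e2
    rw [ht.e2, ← hZ] at h1
    exact (mul_left_cancel₀ hZ0 h1).symm
  subst hu hv
  have q1 : (s.1.1 : ℤ) = t.1.1 := by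
    have h1 := hs.yα
    rw [ht.yα] at h1
    exact (mul_left_cancel₀ hf0 h1).symm
  have q2 : (s.1.2 : ℤ) = t.1.2 := by
    have h1 := hs.yγ
    rw [ht.yγ] at h1
    exact (mul_left_cancel₀ hf0 h1).symm
  have q3 : s.2.1 = t.2.1 := by
    have h1 := hs.yu
    rw [ht.yu] at h1
    exact (mul_left_cancel₀ hf0 h1).symm
  have q4 : s.2.2.1 = t.2.2.1 := by
    have h1 := hs.yv
    rw [ht.yv] at h1
    exact (mul_left_cancel₀ hf0 h1).symm
  refine Prod.ext (Prod.ext ?_ ?_) (Prod.ext q3 (Prod.ext q4 hZ))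
  · exact_mod_cast q1
  · exact_mod_cast q2

/-- arithmetic: `n Λ = c n'`, `k Λ² = c² k'` and coprimality -/
theorem HGT_ar {n k n' k' : ℕ} {c L : ℤ} (hn : 1 ≤ n) (hk : 1 ≤ k) (hn' : 1 ≤ n') (hk' : 1 ≤ k')
    (h : Nat.Coprime n k) (h' : Nat.Coprime n' k') (hL : 0 < L) (e1 : L * n = c * n')
    (e2 : L ^ 2 * k = c ^ 2 * k') : c = L := by
  have h1 : ((n : ℤ) ^ 2 * k') = (k : ℤ) * (n' : ℤ) ^ 2 := by
    have h2 : L ^ 2 * ((n : ℤ) ^ 2 * k') = L ^ 2 * ((k : ℤ) * (n' : ℤ) ^ 2) := by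
      calc L ^ 2 * ((n : ℤ) ^ 2 * k') = (L * n) ^ 2 * k' := by ring
        _ = (c * n') ^ 2 * k' := by rw [e1]
        _ = (c ^ 2 * k') * (n' : ℤ) ^ 2 := by ring
        _ = _ := by
          rw [← e2]
          ring
    exact mul_left_cancel₀ (pow_ne_zero 2 hL.ne') h2
  have h2 : n ^ 2 * k' = k * n' ^ 2 := by exact_mod_cast h1
  have h3 : k ∣ k' := by
    have h4 : k ∣ n ^ 2 * k' := by
      rw [h2]
      exact Nat.dvd_mul_right _ _
    exact (Nat.Coprime.pow_left 2 h).symm.dvd_of_dvd_mul_left h4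
  have h4 : k' ∣ k := by
    have h5 : k' ∣ k * n' ^ 2 := by
      rw [← h2]
      exact Nat.dvd_mul_left _ _
    exact (Nat.Coprime.pow_left 2 h').symm.dvd_of_dvd_mul_right h5
  have h5 : k = k' := Nat.dvd_antisymm h3 h4
  subst h5
  have h6 : n ^ 2 = n' ^ 2 := by
    rw [mul_comm k] at h2
    exact Nat.eq_of_mul_eq_mul_right (by omega) h2
  have h7 : n = n' := Nat.pow_left_injective (by norm_num : (2 : ℕ) ≠ 0) h6
  subst h7
  have h8 : (n : ℤ) ≠ 0 := by exact_mod_cast (by omega : n ≠ 0)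
  exact (mul_right_cancel₀ h8 e1).symm

/-- the elements `x_st` -/
theorem HGT_pair {f : ℕ} (hf : 1 ≤ f) {s t : Tpl} {α γ u v α' γ' u' v' θ θs θt : 𝓞 K}
    (hs : Els Q f s α γ u v θ θs) (ht : Els Q f t α' γ' u' v' θ θt) (hTs : IsT s) (hTt : IsT t)
    (hZs : 0 < s.2.2.2) (hLs : 0 < lam s) (hLt : 0 < lam t) (hZ : s.2.2.2 = t.2.2.2) :
    ∃ x : 𝓞 K, Q.cj α * α' = ((s.2.2.2 : ℤ) : 𝓞 K) ^ 2 * x ∧
      x * Q.cj x = ((lam s * lam t : ℤ) : 𝓞 K) ∧ (f : ℤ) ∣ Q.Y (x ^ 5) ∧ (s ≠ t → Q.Y x ≠ 0) := by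
  have hZt : 0 < t.2.2.2 := hZ ▸ hZs
  obtain ⟨a1, a2, a3, a4, a5⟩ := HGT_one hs hZs hLs
  obtain ⟨b1, b2, b3, b4, b5⟩ := HGT_one ht hZt hLt
  rw [← hZ] at b3
  have hZ0 : ((s.2.2.2 : ℤ) : 𝓞 K) ≠ 0 := HGT_cast_ne hZs.ne'
  have c2 : Q.cj α ^ 5 = Q.cj θ ^ 2 * Q.cj θs := by
    have h := congrArg Q.cj a2
    rwa [map_pow, map_mul, map_pow] at h
  have h5 : (Q.cj α * α') ^ 5 = (((s.2.2.2 : ℤ) : 𝓞 K) ^ 2) ^ 5 * (Q.cj θs * θt) := by
    calc (Q.cj α * α') ^ 5 = Q.cj α ^ 5 * α' ^ 5 := by ring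
      _ = (Q.cj θ ^ 2 * Q.cj θs) * (θ ^ 2 * θt) := by rw [c2, b2]
      _ = (θ * Q.cj θ) ^ 2 * (Q.cj θs * θt) := by ring
      _ = _ := by
        rw [a1]
        ring
  have hdiv : ((s.2.2.2 : ℤ) : 𝓞 K) ^ 2 ∣ Q.cj α * α' := by
    have h6 : (((s.2.2.2 : ℤ) : 𝓞 K) ^ 2) ^ 5 ∣ (Q.cj α * α') ^ 5 := ⟨_, h5⟩
    exact (IsIntegrallyClosed.pow_dvd_pow_iff (by norm_num)).1 h6
  obtain ⟨x, hx⟩ := hdiv
  have hx5 : x ^ 5 = Q.cj θs * θt := by
    refine mul_left_cancel₀ (pow_ne_zero 5 (pow_ne_zero 2 hZ0)) ?_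
    rw [← h5, hx]
    ring
  have hxc : α * Q.cj α' = ((s.2.2.2 : ℤ) : 𝓞 K) ^ 2 * Q.cj x := by
    have h := congrArg Q.cj hx
    rw [map_mul, map_mul, map_pow, Q.cj_cj, Q.cj_int] at h
    exact h
  have hnx : x * Q.cj x = ((lam s * lam t : ℤ) : 𝓞 K) := by
    refine mul_left_cancel₀ (pow_ne_zero 4 hZ0) ?_
    calc ((s.2.2.2 : ℤ) : 𝓞 K) ^ 4 * (x * Q.cj x)
        = (((s.2.2.2 : ℤ) : 𝓞 K) ^ 2 * x) * (((s.2.2.2 : ℤ) : 𝓞 K) ^ 2 * Q.cj x) := by ring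
      _ = (Q.cj α * α') * (α * Q.cj α') := by rw [← hx, ← hxc]
      _ = (α * Q.cj α) * (α' * Q.cj α') := by ring
      _ = _ := by
        rw [hs.nα, ht.nα, ← hZ]
        push_cast
        ring
  refine ⟨x, hx, hnx, ?_, ?_⟩
  · rw [hx5]
    refine Q.h96_Y_mul _ (Q.h96_Y_cj _ ?_) ?_
    · rw [hs.yθ']
      exact Dvd.intro _ rfl
    · rw [ht.yθ']
      exact Dvd.intro _ rfl
  · intro hne h0
    apply hne
    obtain ⟨c, hc⟩ := Q.exists_re x
    rw [h0, Int.cast_zero, zero_mul, add_zero] at hc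
    subst hc
    have d1 : ((lam s : ℤ) : 𝓞 K) * α' = (c : 𝓞 K) * α := by
      refine mul_left_cancel₀ (pow_ne_zero 2 hZ0) ?_
      calc ((s.2.2.2 : ℤ) : 𝓞 K) ^ 2 * (((lam s : ℤ) : 𝓞 K) * α')
          = (((s.2.2.2 : ℤ) : 𝓞 K) ^ 2 * ((lam s : ℤ) : 𝓞 K)) * α' := by ring
        _ = (α * Q.cj α) * α' := by rw [hs.nα]
        _ = α * (Q.cj α * α') := by ring
        _ = _ := by
          rw [hx]
          ring
    have d2 : ((lam s ^ 2 : ℤ) : 𝓞 K) * γ' = ((c ^ 2 : ℤ) : 𝓞 K) * γ := by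
      refine mul_left_cancel₀ a5 ?_
      push_cast
      calc θ * (((lam s : ℤ) : 𝓞 K) ^ 2 * γ') = ((lam s : ℤ) : 𝓞 K) ^ 2 * (θ * γ') := by ring
        _ = ((s.2.2.2 : ℤ) : 𝓞 K) * (((lam s : ℤ) : 𝓞 K) * α') ^ 2 := by
          rw [b3]
          ring
        _ = ((s.2.2.2 : ℤ) : 𝓞 K) * ((c : 𝓞 K) * α) ^ 2 := by rw [d1]
        _ = (c : 𝓞 K) ^ 2 * (((s.2.2.2 : ℤ) : 𝓞 K) * α ^ 2) := by ring
        _ = _ := by
          rw [← a3]
          ring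
    have hf0 : (f : ℤ) ≠ 0 := by exact_mod_cast (by omega : f ≠ 0)
    have y1 : lam s * (t.1.1 : ℤ) = c * (s.1.1 : ℤ) := by
      have h := congrArg Q.Y d1
      rw [Q.Y_int_mul, Q.Y_int_mul, hs.yα, ht.yα] at h
      refine mul_left_cancel₀ hf0 ?_
      linear_combination h
    have y2 : lam s ^ 2 * (t.1.2 : ℤ) = c ^ 2 * (s.1.2 : ℤ) := by
      have h := congrArg Q.Y d2
      rw [Q.Y_int_mul, Q.Y_int_mul, hs.yγ, ht.yγ] at h
      refine mul_left_cancel₀ hf0 ?_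
      linear_combination h
    have hcL : c = lam s := HGT_ar hTt.n1 hTt.k1 hTs.n1 hTs.k1 hTt.co hTs.co hLs y1 y2
    have hαα : α' = α := by
      rw [hcL] at d1
      exact mul_left_cancel₀ (HGT_cast_ne hLs.ne') d1
    subst hαα
    exact HGT_inj hf hs ht hZs hLs hZ

end

/-- the product of the primes -/
theorem HGT_rad {f : ℕ} {y : ℤ} (h : ∀ p : ℕ, p.Prime → p ∣ f → (p : ℤ) ∣ y) : (rad f : ℤ) ∣ y := by
  rw [Int.natCast_dvd]
  unfold rad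
  exact Finset.prod_primes_dvd _ (fun p hp => (Nat.prime_of_mem_primeFactors hp).prime) fun p hp =>
    Int.natCast_dvd.1 (h p (Nat.prime_of_mem_primeFactors hp) (Nat.dvd_of_mem_primeFactors hp))

theorem hgt (hLEMB : LEMB) (hLPR : LPR) (hHLN : HLN) (hHSQ : HSQ) : HGT := by
  intro K _ _ Q f θ X hD hf hp5 hX F hF
  classical
  obtain ⟨E, hE1, hE2, hE3, hE4, hE5⟩ := hLEMB K Q hD
  have hDs : 0 < √|(Q.D : ℝ)| := Real.sqrt_pos.2 (abs_pos.2 (by exact_mod_cast Q.D_ne_zero))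
  have hrad : 0 < rad f := by
    unfold rad
    exact Finset.prod_pos fun p hp => (Nat.prime_of_mem_primeFactors hp).pos
  have hradR : (0 : ℝ) < rad f := by exact_mod_cast hrad
  have hex : ∀ t ∈ F, ∃ α γ u v θ' : 𝓞 K, Els Q f t α γ u v θ θ' := fun t ht => (hF t ht).2.2.2.2
  choose! al ga uu vv th hEls using hex
  have hZeq : ∀ s ∈ F, ∀ t ∈ F, s.2.2.2 = t.2.2.2 := by
    intro s hs t ht
    have h1 := (HGT_one (hEls s hs) (hF s hs).2.1 (hF s hs).2.2.1).1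
    have h2 := (HGT_one (hEls t ht) (hF t ht).2.1 (hF t ht).2.2.1).1
    rw [h1] at h2
    have h3 : s.2.2.2 ^ 5 = t.2.2.2 ^ 5 := by exact_mod_cast h2
    exact (pow_left_inj₀ (hF s hs).2.1.le (hF t ht).2.1.le (by norm_num)).1 h3
  have hpair : ∀ s ∈ F, ∀ t ∈ F, ∃ x : 𝓞 K, Q.cj (al s) * al t = ((s.2.2.2 : ℤ) : 𝓞 K) ^ 2 * x ∧
      x * Q.cj x = ((lam s * lam t : ℤ) : 𝓞 K) ∧ (f : ℤ) ∣ Q.Y (x ^ 5) ∧ (s ≠ t → Q.Y x ≠ 0) :=
    fun s hs t ht => HGT_pair hf (hEls s hs) (hEls t ht) (hF s hs).1 (hF t ht).1 (hF s hs).2.1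
      (hF s hs).2.2.1 (hF t ht).2.2.1 (hZeq s hs t ht)
  choose! xx hxx using hpair
  -- the labels
  have hpp : ∀ p : {p // p ∈ f.primeFactors}, p.1.Prime := fun p => Nat.prime_of_mem_primeFactors p.2
  have hpf : ∀ p : {p // p ∈ f.primeFactors}, p.1 ∣ f := fun p => Nat.dvd_of_mem_primeFactors p.2
  choose lab hlab using fun p : {p // p ∈ f.primeFactors} => hHLN K Q p.1 (hpp p) (hp5 p.1 (hpp p) (hpf p))
  have hi : ∀ p : {p // p ∈ f.primeFactors}, ∃ i : Tpl, (∃ t ∈ F, ¬ (p.1 : ℤ) ∣ lam t) →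
      i ∈ F ∧ ¬ (p.1 : ℤ) ∣ lam i := by
    intro p
    by_cases h : ∃ t ∈ F, ¬ (p.1 : ℤ) ∣ lam t
    · obtain ⟨t, ht⟩ := h
      exact ⟨t, fun _ => ht⟩
    · exact ⟨((0, 0), (0, 0, 0)), fun h' => absurd h' h⟩
  choose ip hip using hi
  obtain ⟨ℓ, hℓ⟩ : ∃ ℓ : Tpl → {p // p ∈ f.primeFactors} → Option (Fin 6), ∀ t p, ℓ t p =
      if (p.1 : ℤ) ∣ lam t then none else some (lab p (xx (ip p) t)) := ⟨_, fun _ _ => rfl⟩
  have hkey : ∀ s ∈ F, ∀ t ∈ F, ℓ s = ℓ t → (rad f : ℤ) ∣ Q.Y (xx s t) := by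
    intro s hs t ht hst
    refine HGT_rad fun p hp hpf' => ?_
    obtain ⟨hx1, hx2, hx3, -⟩ := hxx s hs t ht
    have hfp : (p : ℤ) ∣ (f : ℤ) := by exact_mod_cast hpf'
    have hmem : p ∈ f.primeFactors := Nat.mem_primeFactors.2 ⟨hp, hpf', by omega⟩
    have h1 := congrFun hst ⟨p, hmem⟩
    rw [hℓ, hℓ] at h1
    by_cases hps : (p : ℤ) ∣ lam s
    · rw [if_pos hps] at h1
      have hpt : (p : ℤ) ∣ lam t := by
        by_contra hpt
        rw [if_neg hpt] at h1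
        exact absurd h1 (by simp)
      have h2 : (p : 𝓞 K) ∣ xx s t := by
        refine hHSQ K Q p (xx s t) (lam s * lam t) hp hx2 ?_ (hfp.trans hx3)
        rw [pow_two]
        exact mul_dvd_mul hps hpt
      refine Q.h96_dvd_Y (p : ℤ) (by exact_mod_cast hp.ne_zero) ?_
      rw [Int.cast_natCast]
      exact h2
    · rw [if_neg hps] at h1
      have hpt : ¬ (p : ℤ) ∣ lam t := by
        intro hpt
        rw [if_pos hpt] at h1
        exact absurd h1 (by simp)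
      rw [if_neg hpt] at h1
      have h2 := Option.some_injective _ h1
      obtain ⟨hiF, hiL⟩ := hip ⟨p, hmem⟩ ⟨s, hs, hps⟩
      generalize ip ⟨p, hmem⟩ = i at h2 hiF hiL
      obtain ⟨a1, -, a3, -⟩ := hxx i hiF s hs
      obtain ⟨b1, -, b3, -⟩ := hxx i hiF t ht
      have h3 := hlab ⟨p, hmem⟩ (xx i s) (xx i t) (hfp.trans a3) (hfp.trans b3) h2
      have hZi : ((i.2.2.2 : ℤ) : 𝓞 K) ≠ 0 := HGT_cast_ne (hF i hiF).2.1.ne'
      have hid : Q.cj (xx i s) * xx i t = ((lam i : ℤ) : 𝓞 K) * xx s t := by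
        have a1' : al i * Q.cj (al s) = ((i.2.2.2 : ℤ) : 𝓞 K) ^ 2 * Q.cj (xx i s) := by
          have h := congrArg Q.cj a1
          rw [map_mul, map_mul, map_pow, Q.cj_cj, Q.cj_int] at h
          exact h
        refine mul_left_cancel₀ (pow_ne_zero 4 hZi) ?_
        calc ((i.2.2.2 : ℤ) : 𝓞 K) ^ 4 * (Q.cj (xx i s) * xx i t)
            = (((i.2.2.2 : ℤ) : 𝓞 K) ^ 2 * Q.cj (xx i s)) * (((i.2.2.2 : ℤ) : 𝓞 K) ^ 2 * xx i t) := by ring
          _ = (al i * Q.cj (al s)) * (Q.cj (al i) * al t) := by rw [← a1', ← b1]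
          _ = (al i * Q.cj (al i)) * (Q.cj (al s) * al t) := by ring
          _ = _ := by
            rw [(hEls i hiF).nα, hx1, hZeq s hs i hiF]
            ring
      rw [hid, Q.Y_int_mul] at h3
      exact ((Nat.prime_iff_prime_int.1 hp).dvd_mul.1 h3).resolve_left hiL
  -- one system of labels
  have hB0 : 0 ≤ 2 * Real.pi * X / (rad f * √|(Q.D : ℝ)|) := by
    have := Real.pi_pos
    positivity
  have hfib : ∀ b : {p // p ∈ f.primeFactors} → Option (Fin 6), ((F.filter fun t => ℓ t = b).card : ℝ) ≤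
      1 + 2 * Real.pi * X / (rad f * √|(Q.D : ℝ)|) := by
    intro b
    rcases (F.filter fun t => ℓ t = b).eq_empty_or_nonempty with h0 | ⟨t₀, ht₀⟩
    · rw [h0, Finset.card_empty, Nat.cast_zero]
      linarith
    · have ht₀F := (Finset.mem_filter.1 ht₀).1
      have hZ0 : 0 < t₀.2.2.2 := (hF t₀ ht₀F).2.1
      obtain ⟨Z, hZ⟩ : ∃ Z : ℝ, Z = (t₀.2.2.2 : ℝ) := ⟨_, rfl⟩
      have hZp : 0 < Z := by
        rw [hZ]
        exact_mod_cast hZ0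
      have hV : 0 < Z ^ 2 * rad f * √|(Q.D : ℝ)| / 2 := by positivity
      have hsep : ∀ s ∈ F.filter (fun t => ℓ t = b), ∀ t ∈ F.filter (fun t => ℓ t = b), s ≠ t →
          Z ^ 2 * rad f * √|(Q.D : ℝ)| / 2 ≤ |((starRingEnd ℂ) (E (al s)) * E (al t)).im| := by
        intro s hs t ht hne
        obtain ⟨hsF, hsb⟩ := Finset.mem_filter.1 hs
        obtain ⟨htF, htb⟩ := Finset.mem_filter.1 ht
        obtain ⟨hx1, -, -, hx4⟩ := hxx s hsF t htF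
        have h1 := hkey s hsF t htF (hsb.trans htb.symm)
        have h2 : (rad f : ℤ) ≤ |Q.Y (xx s t)| :=
          Int.le_of_dvd (abs_pos.2 (hx4 hne)) ((dvd_abs _ _).2 h1)
        have h3 : (rad f : ℝ) ≤ |(Q.Y (xx s t) : ℝ)| := by exact_mod_cast h2
        rw [← hE3, ← map_mul, hE2, hx1, hZeq s hsF t₀ ht₀F]
        have h4 : Q.Y (((t₀.2.2.2 : ℤ) : 𝓞 K) ^ 2 * xx s t) = t₀.2.2.2 ^ 2 * Q.Y (xx s t) := by
          rw [← Int.cast_pow, Q.Y_int_mul]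
        rw [h4]
        push_cast
        rw [← hZ, abs_mul, abs_mul, abs_of_pos (pow_pos hZp 2), abs_of_pos (half_pos hDs)]
        calc Z ^ 2 * rad f * √|(Q.D : ℝ)| / 2 = Z ^ 2 * (rad f : ℝ) * (√|(Q.D : ℝ)| / 2) := by ring
          _ ≤ Z ^ 2 * |(Q.Y (xx s t) : ℝ)| * (√|(Q.D : ℝ)| / 2) := by
            refine mul_le_mul_of_nonneg_right ?_ (half_pos hDs).le
            exact mul_le_mul_of_nonneg_left h3 (pow_pos hZp 2).le
      have hinj : Set.InjOn (fun t => E (al t)) (F.filter (fun t => ℓ t = b) : Set Tpl) := by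
        intro s hs t ht he
        by_contra hne
        have h1 := hsep s hs t ht hne
        change E (al s) = E (al t) at he
        rw [he] at h1
        have h2 : ((starRingEnd ℂ) (E (al t)) * E (al t)).im = 0 := by
          rw [mul_comm, Complex.mul_conj]
          exact Complex.ofReal_im _
        rw [h2, abs_zero] at h1
        linarith
      have hR0 : 0 ≤ Z * √X := by positivity
      have h1 := hLPR ((F.filter (fun t => ℓ t = b)).image fun t => E (al t)) (Z * √X)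
        (Z ^ 2 * rad f * √|(Q.D : ℝ)| / 2) hV ?_ ?_
      · rw [Finset.card_image_of_injOn hinj, mul_pow, Real.sq_sqrt hX.le] at h1
        refine h1.trans (le_of_eq ?_)
        field_simp
        ring
      · intro z hz
        obtain ⟨t, ht, rfl⟩ := Finset.mem_image.1 hz
        obtain ⟨htF, -⟩ := Finset.mem_filter.1 ht
        constructor
        · rw [hE1]
          have h2 : (nn (al t) : ℤ) = t.2.2.2 ^ 2 * lam t := by
            refine QF.int_inj (K := K) ?_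
            push_cast
            rw [← hE5, (hEls t htF).nα]
          have h3 : (nn (al t) : ℝ) = (t.2.2.2 : ℝ) ^ 2 * (lam t : ℝ) := by exact_mod_cast h2
          rw [hE4, hZeq t htF t₀ ht₀F, ← hZ] at h3
          have hv0 : 0 ≤ Q.v₁ (al t) := by
            rw [← hE1]
            exact norm_nonneg _
          refine (pow_le_pow_iff_left₀ hv0 hR0 two_ne_zero).1 ?_
          rw [h3, mul_pow, Real.sq_sqrt hX.le]
          exact mul_le_mul_of_nonneg_left (hF t htF).2.2.2.1 (pow_pos hZp 2).le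
        · rw [hE2, (hEls t htF).yα]
          have h2 : 0 < (f : ℤ) * (t.1.1 : ℤ) := by
            have h3 := (hF t htF).1.n1
            have h4 : 0 < f * t.1.1 := Nat.mul_pos hf h3
            exact_mod_cast h4
          have h3 : (0 : ℝ) < (((f : ℤ) * (t.1.1 : ℤ) : ℤ) : ℝ) := by exact_mod_cast h2
          exact mul_pos h3 (half_pos hDs)
      · intro z hz z' hz' hne
        obtain ⟨s, hs, rfl⟩ := Finset.mem_image.1 hz
        obtain ⟨t, ht, rfl⟩ := Finset.mem_image.1 hz'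
        exact hsep s hs t ht fun h => hne (by rw [h])
  have hcard : F.card = ∑ b : {p // p ∈ f.primeFactors} → Option (Fin 6), (F.filter fun t => ℓ t = b).card :=
    Finset.card_eq_sum_card_fiberwise fun t _ => Finset.mem_coe.2 (Finset.mem_univ _)
  rw [hcard]
  push_cast
  refine (Finset.sum_le_sum fun b _ => hfib b).trans (le_of_eq ?_)
  rw [Finset.sum_const, Finset.card_univ, Fintype.card_fun, Fintype.card_option, Fintype.card_fin,
    Fintype.card_coe, nsmul_eq_mul]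
  push_cast
  norm_num

end Pool.Agent.helper26.T5
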